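import Pool.Agent.AT8.Stmts4
import Pool.Agent.Helper62_AT3.LCJ

/-!
# Squad AT8, row FQT: properties of `Fq`
-/

open scoped BigOperators

noncomputable section

namespace Pool.Agent.PP.T8.H37

open Pool.Agent.Helper51_AWC Pool.Agent.Helper79_WRA Pool.Agent.PP Pool.Agent.PP.KF
open Pool.Agent.PP.K9 Pool.Agent.PP.K9.H97 Pool.Agent.PP.H75 Pool.Agent.PP.T3 Pool.Agent.PP.T2

attribute [local instance] Ideal.Quotient.field

theorem fq_trans {F F' F'' G A B : Type} [Group G] [Group A] [Group B] {V : Subgroup G}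
    {γ : G → F} {V' : Subgroup A} {γ' : A → F'} {V'' : Subgroup B} {γ'' : B → F''}
    (h1 : Fq V γ V' γ') (h2 : Fq V' γ' V'' γ'') : Fq V γ V'' γ'' := by
  obtain ⟨π1, hs1, ht1⟩ := h1
  obtain ⟨π2, hs2, ht2⟩ := h2
  refine ⟨π2.comp π1, hs2.comp hs1, fun t'' ht'' => ?_⟩
  obtain ⟨t', ht', h'⟩ := ht2 t'' ht''
  obtain ⟨t, ht, h⟩ := ht1 t' ht'
  exact ⟨t, ht, fun v w hvw => h' (π1 v) (π1 w) (h v w hvw)⟩

theorem fq_conj {F G : Type} [Field F] [Group G] (V : Subgroup G) (γ : G → F) (g : G) :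
    Fq V γ (conjS g V) (cj g γ) := by
  have hp : ∀ v : V, ((conjSEquiv g V v : conjS g V) : G) = g * v * g⁻¹ := fun v => rfl
  refine ⟨(conjSEquiv g V).toMonoidHom, (conjSEquiv g V).surjective, fun t' ht' => ?_⟩
  rw [T3.H62.tg_conjS, T3.H62.mem_conjS] at ht'
  refine ⟨g⁻¹ * t' * g, ht', fun v w hvw => ?_⟩
  change ((conjSEquiv g V w : conjS g V) : G) = t' * ((conjSEquiv g V v : conjS g V) : G) * t'⁻¹
  rw [hp, hp, hvw]
  group

theorem fq_norm {F G : Type} [Field F] [Group G] [Finite G] {V U : Subgroup G} {γ : G → F}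
    (hg : ∀ x, x ∉ Subgroup.centralizer (V : Set G) → γ x = 0)
    (hle : Subgroup.normalizer (V : Set G) ≤ Subgroup.normalizer (U : Set G)) :
    Fq V γ (V.subgroupOf (Subgroup.normalizer (U : Set G)))
      (fun t : Subgroup.normalizer (U : Set G) => γ t) := by
  have hV : V ≤ Subgroup.normalizer (U : Set G) := Subgroup.le_normalizer.trans hle
  refine ⟨(Subgroup.subgroupOfEquivOfLe hV).symm.toMonoidHom,
    (Subgroup.subgroupOfEquivOfLe hV).symm.surjective, fun t' ht' => ?_⟩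
  have hc : ∀ v : V, ((((Subgroup.subgroupOfEquivOfLe hV).symm v :
      V.subgroupOf (Subgroup.normalizer (U : Set G))) : Subgroup.normalizer (U : Set G)) : G) = v :=
    fun v => rfl
  obtain ⟨h1, h2⟩ := Subgroup.mem_inf.1 ht'
  have hn : (t' : G) ∈ Subgroup.normalizer (V : Set G) := by
    rw [Subgroup.mem_normalizer_iff]
    rw [Subgroup.mem_normalizer_iff] at h1
    intro x
    constructor
    · intro hx
      exact (h1 ⟨x, hV hx⟩).1 hx
    · intro hx
      have hx' : x ∈ Subgroup.normalizer (U : Set G) := by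
        have h3 := hV hx
        have h4 := mul_mem (mul_mem (inv_mem t'.2) h3) t'.2
        have e : (t' : G)⁻¹ * (t' * x * (t' : G)⁻¹) * t' = x := by group
        rwa [e] at h4
      exact (h1 ⟨x, hx'⟩).2 hx
  have hs : (t' : G) ∈ stabF γ := by
    intro x
    by_cases hx : x ∈ Subgroup.centralizer (V : Set G)
    · have hxN : x ∈ Subgroup.normalizer (U : Set G) :=
        hle (Subgroup.centralizer_le_normalizer _ hx)
      exact h2 ⟨x, hxN⟩
    · rw [hg x hx]
      apply hg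
      intro h3
      apply hx
      rw [Subgroup.mem_centralizer_iff] at h3 ⊢
      intro v hv
      have h4 : (t' : G) * v * (t' : G)⁻¹ ∈ V := (Subgroup.mem_normalizer_iff.1 hn v).1 hv
      have h5 := h3 _ h4
      have h6 : (t' : G)⁻¹ * ((t' : G) * v * (t' : G)⁻¹ * (t' * x * (t' : G)⁻¹)) * t' =
        (t' : G)⁻¹ * ((t' * x * (t' : G)⁻¹) * ((t' : G) * v * (t' : G)⁻¹)) * t' := by rw [h5]
      have e1 : (t' : G)⁻¹ * ((t' : G) * v * (t' : G)⁻¹ * (t' * x * (t' : G)⁻¹)) * t' = v * x := by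
        group
      have e2 : (t' : G)⁻¹ * ((t' * x * (t' : G)⁻¹) * ((t' : G) * v * (t' : G)⁻¹)) * t' = x * v := by
        group
      rwa [e1, e2] at h6
  refine ⟨t', Subgroup.mem_inf.2 ⟨hn, hs⟩, fun v w hvw => ?_⟩
  apply Subtype.ext
  change ((((Subgroup.subgroupOfEquivOfLe hV).symm w :
      V.subgroupOf (Subgroup.normalizer (U : Set G))) : Subgroup.normalizer (U : Set G)) : G) =
    t' * ((((Subgroup.subgroupOfEquivOfLe hV).symm v :
      V.subgroupOf (Subgroup.normalizer (U : Set G))) : Subgroup.normalizer (U : Set G)) : G) *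
      (t' : G)⁻¹
  rw [hc, hc, hvw]

theorem fq_quot {F F' G A : Type} [Group G] [Group A] {V Q : Subgroup G} {γ : G → F}
    (hab : ∀ a ∈ V, ∀ b ∈ V, a * b = b * a) (hQ : Q ≤ V)
    (p : Subgroup.normalizer (Q : Set G) →* A) (γ' : A → F')
    (h : Fe V Q γ p ((V.subgroupOf (Subgroup.normalizer (Q : Set G))).map p) γ') :
    Fq V γ ((V.subgroupOf (Subgroup.normalizer (Q : Set G))).map p) γ' := by
  obtain ⟨n, hn, ht⟩ := h
  have hV : V ≤ Subgroup.normalizer (Q : Set G) := by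
    intro v hv
    rw [Subgroup.mem_normalizer_iff]
    intro x
    constructor
    · intro hx
      have e : v * x * v⁻¹ = x := by rw [hab v hv x (hQ hx)]; group
      rwa [e]
    · intro hx
      have e : v⁻¹ * (v * x * v⁻¹) * v = v * x * v⁻¹ := by
        rw [hab v⁻¹ (inv_mem hv) _ (hQ hx)]; group
      have e2 : v⁻¹ * (v * x * v⁻¹) * v = x := by group
      rw [← e2, e]
      exact hx
  have hc : ∀ v ∈ V, n * v * n⁻¹ ∈ V := fun v hv => (Subgroup.mem_normalizer_iff.1 hn v).1 hv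
  have hci : ∀ v ∈ V, n⁻¹ * v * n ∈ V := by
    intro v hv
    have := (Subgroup.mem_normalizer_iff.1 (inv_mem hn) v).1 hv
    rwa [inv_inv] at this
  let f : V →* Subgroup.normalizer (Q : Set G) :=
    { toFun := fun v => ⟨n * v * n⁻¹, hV (hc v v.2)⟩
      map_one' := by
        apply Subtype.ext
        change n * 1 * n⁻¹ = 1
        group
      map_mul' := by
        intro a b
        apply Subtype.ext
        change n * ((a : G) * b) * n⁻¹ = n * a * n⁻¹ * (n * b * n⁻¹)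
        group }
  have hf : ∀ v : V, ((f v : Subgroup.normalizer (Q : Set G)) : G) = n * v * n⁻¹ := fun v => rfl
  have hm : ∀ v : V, p (f v) ∈ (V.subgroupOf (Subgroup.normalizer (Q : Set G))).map p :=
    fun v => Subgroup.mem_map_of_mem p (hc v v.2)
  refine ⟨(p.comp f).codRestrict _ hm, ?_, fun t' ht' => ?_⟩
  · rintro ⟨a, ha⟩
    obtain ⟨z, hz, rfl⟩ := ha
    refine ⟨⟨n⁻¹ * z * n, hci z hz⟩, ?_⟩
    apply Subtype.ext
    change p (f ⟨n⁻¹ * z * n, hci z hz⟩) = p z
    congr 1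
    apply Subtype.ext
    rw [hf]
    change n * (n⁻¹ * z * n) * n⁻¹ = z
    group
  · obtain ⟨t, ht1, ht2⟩ := ht t' ht'
    refine ⟨t, ht1, fun v w hvw => ?_⟩
    change p (f w) = t' * p (f v) * t'⁻¹
    refine ht2 v v.2 (f v) (f w) (hf v) ?_
    rw [hf, hvw]

theorem fqt : FqtStmt := by
  intro ℓ _ F _ hF G _ _ e V γ h
  refine ⟨fun A B _ _ V' γ' V'' γ'' h1 h2 => fq_trans h1 h2, fq_conj V γ,
    fun U f hf => fq_norm h.gam.supp hf.nle, fun Q hQ A _ p γ' hFe => fq_quot h.ab hQ p γ' hFe⟩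

end Pool.Agent.PP.T8.H37
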