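import Pool.Agent.AT8.StmtsF

/-!
# Squad AT8, row FOR: representatives of the orbits
-/

open scoped BigOperators

noncomputable section

namespace Pool.Agent.PP.T8.H37

open Pool.Agent.Helper51_AWC Pool.Agent.Helper79_WRA Pool.Agent.PP Pool.Agent.PP.KF
open Pool.Agent.PP.K9 Pool.Agent.PP.K9.H97 Pool.Agent.PP.H75 Pool.Agent.PP.T3 Pool.Agent.PP.T2

attribute [local instance] Ideal.Quotient.field

theorem for_cnt {T X : Type} [Group T] [Finite T] [Finite X] [MulAction T X] (K : Subgroup T)
    (h : ∀ x : X, MulAction.stabilizer T x = K) :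
    Nat.card X = Nat.card (MulAction.orbitRel.Quotient T X) * K.index := by
  have e := MulAction.selfEquivSigmaOrbitsQuotientStabilizer T X
  have e' : X ≃ MulAction.orbitRel.Quotient T X × (T ⧸ K) :=
    e.trans ((Equiv.sigmaCongrRight fun ω => Quotient.congrRight (fun a b => by
      rw [h])).trans (Equiv.sigmaEquivProd _ _))
  rw [Nat.card_congr e', Nat.card_prod]
  rfl

theorem for_dual (V : Type) [CommGroup V] [Finite V] :
    Finite (V →* ℂ) ∧ Nat.card (V →* ℂ) = Nat.card V := by
  have e : (V →* ℂˣ) ≃ (V →* ℂ) :=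
    { toFun := fun f => (Units.coeHom ℂ).comp f
      invFun := fun g => g.toHomUnits
      left_inv := by
        intro f
        ext v
        rfl
      right_inv := by
        intro g
        ext v
        rfl }
  have h1 : Nat.card (V →* ℂˣ) = Nat.card V :=
    CommGroup.card_monoidHom_of_hasEnoughRootsOfUnity V ℂ
  have h2 : Nat.card (V →* ℂ) = Nat.card V := by rw [← Nat.card_congr e, h1]
  refine ⟨?_, h2⟩
  apply Nat.finite_of_card_ne_zero
  rw [h2]
  exact Nat.card_pos.ne'

theorem for_abs {V T : Type} [CommGroup V] [Finite V] [Group T] [Finite T] (φ : T →* MulAut V)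
    (hf : ∀ t v, v ≠ 1 → φ t v = v → φ t = 1) :
    ∃ (m : ℕ) (u : Fin m → V) (lam : Fin m → (V →* ℂ)),
      (∀ i, u i ≠ 1) ∧ (∀ i j, i ≠ j → ∀ t, φ t (u i) ≠ u j) ∧
      (∀ i, ∃ v, lam i v ≠ 1) ∧ (∀ i j, i ≠ j → ∀ t, ¬ ∀ v, lam j v = lam i (φ t v)) ∧
      ∀ mu : V →* ℂ, (∃ v, mu v ≠ 1) → ∃ i, ∃ t, ∀ v, mu v = lam i (φ t v) := by
  obtain ⟨hfin, hcard⟩ := for_dual V
  -- the two sets
  let X1 := {v : V // v ≠ 1}
  let X2 := {l : V →* ℂ // l ≠ 1}
  have c1 : Nat.card X1 = Nat.card V - 1 := by
    classical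
    have i1 : Fintype V := Fintype.ofFinite V
    rw [Nat.card_eq_fintype_card, Nat.card_eq_fintype_card]
    exact Set.card_ne_eq _
  have c2 : Nat.card X2 = Nat.card (V →* ℂ) - 1 := by
    classical
    have i1 : Fintype (V →* ℂ) := Fintype.ofFinite _
    rw [Nat.card_eq_fintype_card, Nat.card_eq_fintype_card]
    exact Set.card_ne_eq _
  let a1 : MulAction T X1 :=
    { smul := fun t v => ⟨φ t v, fun h => v.2 ((φ t).injective (h.trans (map_one (φ t)).symm))⟩
      one_smul := by
        intro v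
        apply Subtype.ext
        change φ 1 (v : V) = v
        rw [map_one]
        rfl
      mul_smul := by
        intro s t v
        apply Subtype.ext
        change φ (s * t) (v : V) = φ s (φ t v)
        rw [map_mul]
        rfl }
  have hne : ∀ (t : T) (l : V →* ℂ), l ≠ 1 → l.comp (φ t⁻¹).toMonoidHom ≠ 1 := by
    intro t l hl h
    apply hl
    ext v
    have h1 := DFunLike.congr_fun h (φ t v)
    change l (φ t⁻¹ (φ t v)) = 1 at h1
    have h2 : φ t⁻¹ (φ t v) = v := by
      change (φ t⁻¹ * φ t) v = v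
      rw [← map_mul, inv_mul_cancel, map_one]
      rfl
    rw [h2] at h1
    exact h1
  let a2 : MulAction T X2 :=
    { smul := fun t l => ⟨(l : V →* ℂ).comp (φ t⁻¹).toMonoidHom, hne t l l.2⟩
      one_smul := by
        intro l
        apply Subtype.ext
        ext v
        change (l : V →* ℂ) (φ 1⁻¹ v) = (l : V →* ℂ) v
        rw [inv_one, map_one]
        rfl
      mul_smul := by
        intro s t l
        apply Subtype.ext
        ext v
        change (l : V →* ℂ) (φ (s * t)⁻¹ v) = (l : V →* ℂ) (φ t⁻¹ (φ s⁻¹ v))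
        rw [mul_inv_rev, map_mul]
        rfl }
  have hs1 : ∀ (t : T) (v : X1), ((t • v : X1) : V) = φ t v := fun t v => rfl
  have hs2 : ∀ (t : T) (l : X2) (v : V), ((t • l : X2) : V →* ℂ) v = (l : V →* ℂ) (φ t⁻¹ v) :=
    fun t l v => rfl
  have st1 : ∀ x : X1, MulAction.stabilizer T x = φ.ker := by
    intro x
    ext t
    rw [MulAction.mem_stabilizer_iff, MonoidHom.mem_ker]
    constructor
    · intro h
      exact hf t x x.2 (by rw [← hs1, h])
    · intro h
      apply Subtype.ext
      rw [hs1, h]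
      rfl
  have st2 : ∀ x : X2, MulAction.stabilizer T x = φ.ker := by
    intro x
    ext t
    rw [MulAction.mem_stabilizer_iff, MonoidHom.mem_ker]
    constructor
    · intro h
      by_contra hc
      apply x.2
      have hi : ∀ v, φ t⁻¹ v = v → v = 1 := by
        intro v hv
        by_contra hv1
        have h1 := hf t⁻¹ v hv1 hv
        apply hc
        rw [map_inv, inv_eq_one] at h1
        exact h1
      let f : V →* V :=
        { toFun := fun v => φ t⁻¹ v * v⁻¹
          map_one' := by simp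
          map_mul' := by
            intro a b
            rw [map_mul, mul_inv]
            exact mul_mul_mul_comm _ _ _ _ }
      have hinj : Function.Injective f := by
        rw [injective_iff_map_eq_one]
        intro v hv
        apply hi
        change φ t⁻¹ v * v⁻¹ = 1 at hv
        exact mul_inv_eq_one.1 hv
      have hsur : Function.Surjective f := Finite.injective_iff_surjective.1 hinj
      ext w
      obtain ⟨v, rfl⟩ := hsur w
      change (x : V →* ℂ) (φ t⁻¹ v * v⁻¹) = 1
      have h2 : (x : V →* ℂ) (φ t⁻¹ v) = (x : V →* ℂ) v := by rw [← hs2, h]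
      rw [map_mul, h2, ← map_mul, mul_inv_cancel, map_one]
    · intro h
      apply Subtype.ext
      ext v
      rw [hs2, map_inv, h, inv_one]
      rfl
  have hq : Nat.card (MulAction.orbitRel.Quotient T X1) =
      Nat.card (MulAction.orbitRel.Quotient T X2) := by
    have h1 := for_cnt φ.ker st1
    have h2 := for_cnt φ.ker st2
    rw [c1] at h1
    rw [c2, hcard] at h2
    rw [h1] at h2
    exact Nat.eq_of_mul_eq_mul_right (Nat.pos_of_ne_zero Subgroup.index_ne_zero_of_finite) h2
  let e1 := Finite.equivFin (MulAction.orbitRel.Quotient T X1)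
  let e2 := (Finite.equivFin (MulAction.orbitRel.Quotient T X2)).trans (finCongr hq.symm)
  have ho1 : ∀ i, Quotient.mk _ (e1.symm i).out = e1.symm i := fun i => Quotient.out_eq' _
  have ho2 : ∀ i, Quotient.mk _ (e2.symm i).out = e2.symm i := fun i => Quotient.out_eq' _
  refine ⟨Nat.card (MulAction.orbitRel.Quotient T X1), fun i => (e1.symm i).out.1,
    fun i => (e2.symm i).out.1, fun i => (e1.symm i).out.2, ?_, ?_, ?_, ?_⟩
  · intro i j hij t h
    apply hij
    apply e1.symm.injective
    rw [← ho1 i, ← ho1 j]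
    symm
    apply Quotient.sound'
    exact ⟨t, Subtype.ext h⟩
  · intro i
    by_contra hc
    apply (e2.symm i).out.2
    ext v
    by_contra hv
    exact hc ⟨v, hv⟩
  · intro i j hij t h
    apply hij
    apply e2.symm.injective
    rw [← ho2 i, ← ho2 j]
    symm
    apply Quotient.sound'
    refine ⟨t⁻¹, Subtype.ext ?_⟩
    ext v
    rw [h v]
    change (((t⁻¹ • (e2.symm i).out : X2)) : V →* ℂ) v = _
    rw [hs2, inv_inv]
  · rintro mu ⟨v0, hv0⟩
    have hm : mu ≠ 1 := by
      intro h
      apply hv0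
      rw [h]
      rfl
    let x : X2 := ⟨mu, hm⟩
    refine ⟨e2 (Quotient.mk _ x), ?_⟩
    have h1 : Quotient.mk _ (e2.symm (e2 (Quotient.mk _ x))).out = (Quotient.mk _ x :
      MulAction.orbitRel.Quotient T X2) := by rw [ho2, Equiv.symm_apply_apply]
    have h2 := Quotient.exact h1.symm
    obtain ⟨t, ht⟩ := h2
    refine ⟨t⁻¹, fun v => ?_⟩
    have h6 := congrArg (fun z : X2 => (z : V →* ℂ) v) ht
    exact h6.symm

theorem for_ : ForStmt := by
  intro ℓ _ F _ hF G _ _ e V γ h hfr
  let cV : CommGroup V :=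
    { (inferInstance : Group V) with
      mul_comm := fun a b => Subtype.ext (h.ab a a.2 b b.2) }
  have hc : ∀ t ∈ Tg V γ, ∀ v ∈ V, t * v * t⁻¹ ∈ V := fun t ht v hv =>
    (Subgroup.mem_normalizer_iff.1 (Subgroup.mem_inf.1 ht).1 v).1 hv
  let φ : Tg V γ →* MulAut V :=
    (Subgroup.normalizerMonoidHom V).comp (Subgroup.inclusion inf_le_left)
  have hφ : ∀ (t : Tg V γ) (v : V), ((φ t v : V) : G) = t * v * (t : G)⁻¹ := fun t v => rfl
  have hφ1 : ∀ t : Tg V γ, (t : G) ∈ Subgroup.centralizer (V : Set G) → φ t = 1 := by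
    intro t ht
    ext v
    rw [hφ]
    have h1 := Subgroup.mem_centralizer_iff.1 ht v v.2
    rw [← h1]
    change (v : G) * t * (t : G)⁻¹ = v
    group
  obtain ⟨m, u, lam, h1, h2, h3, h4, h5⟩ := for_abs φ (by
    intro t v hv htv
    apply hφ1
    have hv' : (v : G) ≠ 1 := fun h0 => hv (Subtype.ext h0)
    refine hfr t t.2 v v.2 hv' ?_
    have h0 := congrArg (fun w : V => (w : G)) htv
    change ((φ t v : V) : G) = v at h0
    rw [hφ] at h0
    exact mul_inv_eq_iff_eq_mul.1 h0)
  refine ⟨m, fun i => (u i : G), lam, fun i => ⟨(u i).2, fun h0 => h1 i (Subtype.ext h0)⟩, ?_, h3,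
    ?_, ?_⟩
  · intro i j hij t ht h0
    apply h2 i j hij ⟨t, ht⟩
    apply Subtype.ext
    rw [hφ]
    exact h0
  · intro i j hij t ht h0
    apply h4 i j hij ⟨t, ht⟩
    intro v
    exact h0 v (φ ⟨t, ht⟩ v) (hφ _ _)
  · intro mu hmu
    obtain ⟨i, t, hit⟩ := h5 mu hmu
    refine ⟨i, t, t.2, fun v w hvw => ?_⟩
    rw [hit v]
    congr 1
    apply Subtype.ext
    rw [hφ, hvw]

end Pool.Agent.PP.T8.H37
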